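import Pool.Agent.H685R3.Om
import Pool.Agent.Helper750.CT.Base

/-!
Structures whose universe is a set of natural numbers; computable structures and their theories.
The languages `Lang`, the formulas `Fml`, their Goedel numbers `Fml.code`, the predicate `IsSent`
and the set `codes T` of Goedel numbers of a theory are those of the modules
`Pool.Agent.Helper750.DC.Base` and `Pool.Agent.Helper750.CT.Base`; the Turing jump `jump`
and Turing reducibility `TLe` are those of `Pool.Agent.Helper227`.
-/

set_option autoImplicit false

namespace Pool.Agent.U95.TD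

open Pool.Agent.Helper227 (TLe jump)
open Pool.Agent.Helper750.DC (Lang Fml)
open Pool.Agent.Helper750.CT (IsSent codes)

/-- The formula is a formula of the language `L`. -/
def InL (L : Lang) : Fml → Prop
  | .rel i vs => L.rel i = some vs.length
  | .fn i vs _ => L.fn i = some vs.length
  | .eq _ _ => True
  | .not φ => InL L φ
  | .and φ ψ => InL L φ ∧ InL L ψ
  | .ex _ φ => InL L φ

/-- `T` is a complete `L`-theory: a set of `L`-sentences which, for every `L`-sentence `φ`,
contains exactly one of `φ` and `¬ φ`. -/
def IsCompleteTheory (L : Lang) (T : Set Fml) : Prop :=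
  (∀ φ ∈ T, InL L φ ∧ IsSent φ) ∧ ∀ φ, InL L φ → IsSent φ → (φ ∉ T ↔ Fml.not φ ∈ T)

/-- A structure with universe `U ⊆ ℕ`: the universe, and interpretations of the relation and
function symbols. (Only the values of `R i xs` and `F i xs` on lists `xs` of elements of `U` of
length the arity of the symbol matter.) -/
structure UStr where
  U : Set ℕ
  R : ℕ → List ℕ → Prop
  F : ℕ → List ℕ → ℕ

/-- The universe is nonempty and closed under the functions of the structure. -/
def UStr.IsStr (L : Lang) (A : UStr) : Prop :=
  A.U.Nonempty ∧ ∀ i xs, L.fn i = some xs.length → (∀ x ∈ xs, x ∈ A.U) → A.F i xs ∈ A.U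

/-- Satisfaction of a formula in the structure `A` under the assignment `x`. -/
def USat (L : Lang) (A : UStr) : Fml → (ℕ → ℕ) → Prop
  | .rel i vs, x => L.rel i = some vs.length ∧ A.R i (vs.map x)
  | .fn i vs w, x => L.fn i = some vs.length ∧ A.F i (vs.map x) = x w
  | .eq v w, x => x v = x w
  | .not φ, x => ¬ USat L A φ x
  | .and φ ψ, x => USat L A φ x ∧ USat L A ψ x
  | .ex v φ, x => ∃ a ∈ A.U, USat L A φ (Function.update x v a)

/-- The structure `A` is computable: its universe is a computable set, and its relations and
functions are uniformly computable on the universe, that is, its atomic diagram is computable. -/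
def IsComputableUStr (L : Lang) (A : UStr) : Prop :=
  (ComputablePred fun a => a ∈ A.U) ∧
  (∃ d : ℕ × List ℕ → Bool, Computable d ∧
    ∀ i xs, L.rel i = some xs.length → (∀ x ∈ xs, x ∈ A.U) → (d (i, xs) = true ↔ A.R i xs)) ∧
  ∃ e : ℕ × List ℕ → ℕ, Computable e ∧
    ∀ i xs, L.fn i = some xs.length → (∀ x ∈ xs, x ∈ A.U) → e (i, xs) = A.F i xs

/-- The structure `A` is a model of the theory `T`. -/
def IsUModel (L : Lang) (T : Set Fml) (A : UStr) : Prop :=
  ∀ φ ∈ T, ∀ x : ℕ → ℕ, (∀ v, x v ∈ A.U) → USat L A φ x

/-- The theory `T` possesses a computable model. -/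
def HasComputableModel (L : Lang) (T : Set Fml) : Prop :=
  ∃ A : UStr, A.IsStr L ∧ IsComputableUStr L A ∧ IsUModel L T A

/-- The `n`-th Turing jump `0^(n)` of the empty set. -/
noncomputable def zeroJump : ℕ → ℕ → Bool
  | 0 => fun _ => false
  | n + 1 => jump (zeroJump n)

/-- The set `0^(ω)`: all pairs `⟨n, x⟩` with `x` in the `n`-th jump of the empty set. -/
noncomputable def zeroOmega (m : ℕ) : Bool := zeroJump m.unpair.1 m.unpair.2

open Classical in
/-- The characteristic function of the set of Goedel numbers of the sentences of `T`. -/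
noncomputable def theoryChar (T : Set Fml) (n : ℕ) : Bool := decide (n ∈ codes T)

end Pool.Agent.U95.TD
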