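import Pool.Agent.H685R3.Om

/-!
For every oracle `Z` above the halting problem and every sequence `X 0, X 1, ...` of sets which is
uniformly computable in `Z` there is a set computable in `Z` which is Turing equivalent to no
member of the sequence.
-/

set_option autoImplicit false

namespace Pool.Agent.U95.TD

open Encodable
open Nat.Partrec (Code)
open Pool.Agent.Helper227 Pool.Agent.H685R3

/-- the `e`-th Turing functional, by its monotone graph -/
def Hf (e : ℕ) (σ : List Bool) (x : ℕ × Bool) : Prop :=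
  ∃ k : ℕ, ((Denumerable.ofNat Code e).eval (encode (σ.take k, x))).Dom

theorem primrec_take {α : Type*} [Primcodable α] :
    Primrec fun p : List α × ℕ => p.1.take p.2 := by
  have h : Primrec fun p : List α × ℕ => Nat.rec (motive := fun _ => List α) []
      (fun n IH => IH ++ (p.1[n]?).toList) p.2 := by
    refine Primrec.nat_rec' (f := fun p : List α × ℕ => p.2) (g := fun _ => [])
      (h := fun p q => q.2 ++ (p.1[q.1]?).toList) Primrec.snd (Primrec.const _) ?_
    refine Primrec.list_append.comp (Primrec.snd.comp Primrec.snd) ?_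
    have h1 : Primrec fun o : Option α => o.toList := by
      refine (Primrec.option_casesOn (o := fun o : Option α => o) (f := fun _ => ([] : List α))
        (g := fun _ a => [a]) Primrec.id (Primrec.const _)
        (Primrec.list_cons.comp Primrec.snd (Primrec.const []))).of_eq fun o => ?_
      cases o <;> rfl
    exact h1.comp (Primrec.list_getElem?.comp (Primrec.fst.comp Primrec.fst)
      (Primrec.fst.comp Primrec.snd))
  refine h.of_eq fun p => ?_
  obtain ⟨l, n⟩ := p
  simp only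
  induction n with
  | zero => rfl
  | succ n ih => simp only [ih]; rw [List.take_add_one]

theorem s1_Hf : S1 fun y : ℕ × List Bool × ℕ × Bool => Hf y.1 y.2.1 y.2.2 := by
  refine S1.ex (p := fun (y : ℕ × List Bool × ℕ × Bool) (k : ℕ) =>
    ((Denumerable.ofNat Code y.1).eval (encode (y.2.1.take k, y.2.2))).Dom) ?_
  exact S1.comp (f := fun y : (ℕ × List Bool × ℕ × Bool) × ℕ =>
    (Denumerable.ofNat Code y.1.1, encode (y.1.2.1.take y.2, y.1.2.2))) s1_eval
    (((Primrec.ofNat Code).comp (Primrec.fst.comp Primrec.fst)).pair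
      (Primrec.encode.comp ((primrec_take.comp ((Primrec.fst.comp (Primrec.snd.comp
        Primrec.fst)).pair Primrec.snd)).pair (Primrec.snd.comp (Primrec.snd.comp Primrec.fst)))))

theorem Hf_mono {e : ℕ} {σ τ : List Bool} {x : ℕ × Bool} (h : σ <+: τ) (hσ : Hf e σ x) :
    Hf e τ x := by
  obtain ⟨k, hk⟩ := hσ
  obtain ⟨ρ, rfl⟩ := h
  by_cases hk2 : k ≤ σ.length
  · exact ⟨k, by rw [List.take_append_of_le_length hk2]; exact hk⟩
  · refine ⟨σ.length, ?_⟩
    rw [List.take_left']
    · rw [List.take_of_length_le (by omega)] at hk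
      exact hk
    · rfl

theorem exists_Hf {A B : ℕ → Bool} (h : TLe A B) :
    ∃ e, ∀ n b, A n = b ↔ ∃ s, Hf e (pre B s) (n, b) := by
  obtain ⟨E, hE, mE, eE⟩ := tLe_iff_SI.1 h
  obtain ⟨c, hc⟩ := Code.exists_code.1 (hE.comp (f := fun m : ℕ =>
    ((decode (α := List Bool × ℕ × Bool) m).getD ([], 0, false)))
    (Primrec.option_getD.comp Primrec.decode (Primrec.const _))).re
  have key : ∀ (σ : List Bool) (x : ℕ × Bool), (c.eval (encode (σ, x))).Dom ↔ E (σ, x) := by
    intro σ x
    rw [hc]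
    simp [Part.assert]
  refine ⟨encode c, fun n b => ?_⟩
  refine (eE (n, b)).trans ?_
  simp only [Hf, Denumerable.ofNat_encode]
  constructor
  · rintro ⟨s, hs⟩
    refine ⟨s, s, ?_⟩
    rw [key, take_pre B s s le_rfl]
    exact hs
  · rintro ⟨s, k, hk⟩
    rw [key] at hk
    exact ⟨s, mE _ _ _ (List.take_prefix _ _) hk⟩

/-- The candidate `(τ, α, b')` for `σ` and `b`. -/
def Cand (i j : ℕ) (σ : List Bool) (b : Bool) (y : List Bool × List Bool × Bool) : Prop :=
  (y.1.take (σ.length + 1) = σ ++ [b] ∧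
    ∀ m < y.2.1.length, Hf i y.1 (m, y.2.1.getD m false)) ∧ Hf j y.2.1 (σ.length, y.2.2)

/-- arguments: `((i, j), σ)`, `b` and the candidate -/
theorem s1_Cand : S1 fun y : (((ℕ × ℕ) × List Bool) × Bool) × List Bool × List Bool × Bool =>
    Cand y.1.1.1.1 y.1.1.1.2 y.1.1.2 y.1.2 y.2 := by
  have hi : Primrec fun y : (((ℕ × ℕ) × List Bool) × Bool) × List Bool × List Bool × Bool =>
      y.1.1.1.1 := Primrec.fst.comp (Primrec.fst.comp (Primrec.fst.comp Primrec.fst))
  have hj : Primrec fun y : (((ℕ × ℕ) × List Bool) × Bool) × List Bool × List Bool × Bool =>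
      y.1.1.1.2 := Primrec.snd.comp (Primrec.fst.comp (Primrec.fst.comp Primrec.fst))
  have hσ : Primrec fun y : (((ℕ × ℕ) × List Bool) × Bool) × List Bool × List Bool × Bool =>
      y.1.1.2 := Primrec.snd.comp (Primrec.fst.comp Primrec.fst)
  have hb : Primrec fun y : (((ℕ × ℕ) × List Bool) × Bool) × List Bool × List Bool × Bool =>
      y.1.2 := Primrec.snd.comp Primrec.fst
  have hτ : Primrec fun y : (((ℕ × ℕ) × List Bool) × Bool) × List Bool × List Bool × Bool =>
      y.2.1 := Primrec.fst.comp Primrec.snd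
  have hα : Primrec fun y : (((ℕ × ℕ) × List Bool) × Bool) × List Bool × List Bool × Bool =>
      y.2.2.1 := Primrec.fst.comp (Primrec.snd.comp Primrec.snd)
  have hb' : Primrec fun y : (((ℕ × ℕ) × List Bool) × Bool) × List Bool × List Bool × Bool =>
      y.2.2.2 := Primrec.snd.comp (Primrec.snd.comp Primrec.snd)
  refine S1.and (S1.and (S1.of_prim ?_) ?_) ?_
  · exact Primrec.eq.comp (primrec_take.comp (hτ.pair
      (Primrec.succ.comp (Primrec.list_length.comp hσ))))
      (Primrec.list_append.comp hσ (Primrec.list_cons.comp hb (Primrec.const [])))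
  · refine S1.all_lt (p := fun (y : (((ℕ × ℕ) × List Bool) × Bool) × List Bool × List Bool × Bool)
      (m : ℕ) => Hf y.1.1.1.1 y.2.1 (m, y.2.2.1.getD m false)) (f := fun y => y.2.2.1.length) ?_
      (Primrec.list_length.comp hα)
    exact s1_Hf.comp (f := fun z : ((((ℕ × ℕ) × List Bool) × Bool) × List Bool × List Bool × Bool)
      × ℕ => (z.1.1.1.1.1, z.1.2.1, (z.2, z.1.2.2.1.getD z.2 false)))
      ((hi.comp Primrec.fst).pair ((hτ.comp Primrec.fst).pair (Primrec.snd.pair
        ((Primrec.list_getD false).comp (hα.comp Primrec.fst) Primrec.snd))))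
  · exact s1_Hf.comp (f := fun y : (((ℕ × ℕ) × List Bool) × Bool) × List Bool × List Bool × Bool =>
      (y.1.1.1.2, y.2.2.1, (y.1.1.2.length, y.2.2.2)))
      (hj.pair (hα.pair ((Primrec.list_length.comp hσ).pair hb')))

/-- `α` is an initial segment of `X` -/
def Agr (X : ℕ → Bool) (α : List Bool) : Prop := ∀ m < α.length, X m = α.getD m false

/-- `α` is not an initial segment of `X` -/
def Dis (X : ℕ → Bool) (α : List Bool) : Prop := ∃ m, m < α.length ∧ X m = !(α.getD m false)

theorem not_agr {X : ℕ → Bool} {α : List Bool} : ¬ Agr X α ↔ Dis X α := by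
  unfold Agr Dis
  push Not
  refine exists_congr fun m => and_congr_right fun _ => ?_
  cases X m <;> cases α.getD m false <;> simp

theorem agr_iff {X : ℕ → Bool} {α : List Bool} : Agr X α ↔ pre X α.length = α := by
  constructor
  · intro h
    refine List.ext_getElem (by simp) fun i h5 h6 => ?_
    rw [getElem_pre, h i h6]
    simp [h6]
  · intro h m hm
    rw [← h, pre_getD _ _ _ _ hm]

/-- The string `τ` is a good successor of `σ` for the requirement `(c, i, j)`. -/
def Pr (X : ℕ → ℕ → Bool) (a : (ℕ × ℕ × ℕ) × List Bool) (τ : List Bool) : Prop :=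
  (∃ b : Bool, τ = a.2 ++ [b] ∧ ¬ ∃ y, Cand a.1.2.1 a.1.2.2 a.2 b y) ∨
  (∃ b : Bool, ∃ z : List Bool × Bool, Cand a.1.2.1 a.1.2.2 a.2 b (τ, z.1, z.2) ∧
    (z.2 = !b ∨ Dis (X a.1.1) z.1)) ∨
  (τ = a.2 ++ [false] ∧ ∃ y y' : List Bool × List Bool × Bool,
    (Cand a.1.2.1 a.1.2.2 a.2 false y ∧ y.2.2 = false ∧ Agr (X a.1.1) y.2.1) ∧
    (Cand a.1.2.1 a.1.2.2 a.2 true y' ∧ y'.2.2 = true ∧ Agr (X a.1.1) y'.2.1))

theorem exists_Pr (X : ℕ → ℕ → Bool) (a : (ℕ × ℕ × ℕ) × List Bool) : ∃ τ, Pr X a τ := by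
  by_contra hno
  push Not at hno
  have h1 : ∀ b : Bool, ∃ y, Cand a.1.2.1 a.1.2.2 a.2 b y := by
    intro b
    by_contra h
    exact hno _ (Or.inl ⟨b, rfl, h⟩)
  have h2 : ∀ (b : Bool) y, Cand a.1.2.1 a.1.2.2 a.2 b y → y.2.2 = b ∧ Agr (X a.1.1) y.2.1 := by
    intro b y hy
    constructor
    · by_contra h
      refine hno y.1 (Or.inr (Or.inl ⟨b, (y.2.1, y.2.2), hy, Or.inl ?_⟩))
      cases h3 : y.2.2 <;> cases b <;> simp_all
    · by_contra h
      exact hno y.1 (Or.inr (Or.inl ⟨b, (y.2.1, y.2.2), hy, Or.inr (not_agr.1 h)⟩))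
  obtain ⟨y, hy⟩ := h1 false
  obtain ⟨y', hy'⟩ := h1 true
  exact hno _ (Or.inr (Or.inr ⟨rfl, y, y', ⟨hy, h2 _ _ hy⟩, hy', h2 _ _ hy'⟩))

theorem Pr_prefix {X : ℕ → ℕ → Bool} {a : (ℕ × ℕ × ℕ) × List Bool} {τ : List Bool}
    (h : Pr X a τ) : ∃ b : Bool, a.2 ++ [b] <+: τ := by
  rcases h with ⟨b, rfl, _⟩ | ⟨b, z, ⟨⟨h, _⟩, _⟩, _⟩ | ⟨rfl, _⟩
  · exact ⟨b, List.prefix_rfl⟩
  · refine ⟨b, ?_⟩
    rw [← h]
    exact List.take_prefix _ _
  · exact ⟨false, List.prefix_rfl⟩

/-- The requirement is satisfied by every set extending a good successor. -/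
theorem Pr_sat {X : ℕ → ℕ → Bool} {c i j : ℕ} {σ τ : List Bool} (h : Pr X ((c, i, j), σ) τ)
    {D : ℕ → Bool} (hD : pre D τ.length = τ) :
    ¬ ((∀ n b, X c n = b ↔ ∃ s, Hf i (pre D s) (n, b)) ∧
      ∀ n b, D n = b ↔ ∃ s, Hf j (pre (X c) s) (n, b)) := by
  rintro ⟨h1, h2⟩
  -- the value at `σ.length`
  have key : ∀ b : Bool, σ ++ [b] <+: τ → D σ.length = b := by
    intro b hb
    obtain ⟨ρ, hρ⟩ := hb
    have h3 : σ.length < τ.length := by rw [← hρ]; simp
    have h4 := pre_getD D τ.length σ.length false h3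
    rw [hD, ← hρ] at h4
    rw [← h4]
    simp [List.getD]
  rcases h with ⟨b, hτ, hno⟩ | ⟨b, z, ⟨⟨hz1, hz2⟩, hz3⟩, hz4⟩ | ⟨_, y, y', ⟨hy1, hy2, hy3⟩, hy1', hy2', hy3'⟩
  · -- no candidate
    simp only at hτ hno
    apply hno
    have h3 : D σ.length = b := key b (hτ ▸ List.prefix_rfl)
    obtain ⟨s, hs⟩ := (h2 σ.length b).1 h3
    -- each bit of `pre (X c) s` is computed from an initial segment of `D`
    have h4 : ∀ N, ∃ t, ∀ m < N, Hf i (pre D t) (m, X c m) := by
      intro N
      induction N with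
      | zero => exact ⟨0, by simp⟩
      | succ N ih =>
        obtain ⟨t, ht⟩ := ih
        obtain ⟨t', ht'⟩ := (h1 N (X c N)).1 rfl
        refine ⟨max t t', fun m hm => ?_⟩
        rcases Nat.lt_succ_iff_lt_or_eq.1 hm with hm | rfl
        · exact Hf_mono (pre_prefix D (le_max_left _ _)) (ht m hm)
        · exact Hf_mono (pre_prefix D (le_max_right _ _)) ht'
    obtain ⟨t, ht⟩ := h4 s
    refine ⟨(pre D (max t τ.length), pre (X c) s, b), ⟨?_, ?_⟩, hs⟩
    · simp only
      have h5 : σ.length + 1 = τ.length := by rw [hτ]; simp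
      rw [h5, take_pre D _ _ (le_max_right _ _), hD, hτ]
    · intro m hm
      simp only [length_pre] at hm ⊢
      rw [pre_getD _ _ _ _ hm]
      exact Hf_mono (pre_prefix D (le_max_left _ _)) (ht m hm)
  · -- a candidate with a wrong value
    simp only at hz1 hz2 hz3 hz4
    have h3 : D σ.length = b := key b (hz1 ▸ List.take_prefix _ _)
    have h5 : Agr (X c) z.1 := by
      intro m hm
      exact (h1 m _).2 ⟨τ.length, by rw [hD]; exact hz2 m hm⟩
    rcases hz4 with hz4 | hz4
    · have h6 : D σ.length = z.2 := (h2 _ _).2 ⟨z.1.length, by rw [agr_iff.1 h5]; exact hz3⟩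
      rw [h3, hz4] at h6
      cases b <;> simp at h6
    · exact (not_agr.2 hz4) h5
  · -- two compatible candidates
    simp only at hy1 hy2 hy3 hy1' hy2' hy3'
    have e1 : D σ.length = false := by
      have := (h2 σ.length y.2.2).2 ⟨y.2.1.length, by rw [agr_iff.1 hy3]; exact hy1.2⟩
      rw [this, hy2]
    have e2 : D σ.length = true := by
      have := (h2 σ.length y'.2.2).2 ⟨y'.2.1.length, by rw [agr_iff.1 hy3']; exact hy1'.2⟩
      rw [this, hy2']
    rw [e1] at e2
    cases e2


/-- Uniformization of relations that are Sigma-one in an oracle. -/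
theorem SI_choose {Z : ℕ → Bool} {α β : Type*} [Primcodable α] [Primcodable β] [Inhabited β]
    {P : α → β → Prop} (hP : SI Z fun x : α × β => P x.1 x.2) (hex : ∀ a, ∃ b, P a b) :
    ∃ f : α → β, (∀ a, P a (f a)) ∧ SI Z fun x : α × β => f x.1 = x.2 := by
  obtain ⟨E, hE, mE, eE⟩ := hP
  have h1 : US fun B (x : α × β) => ∃ s, E (pre B s, (x.1, x.2)) := ⟨E, hE, mE, fun _ _ => Iff.rfl⟩
  obtain ⟨G, hG, G1, G2, G3⟩ := US.choose (P := fun B a b => ∃ s, E (pre B s, (a, b))) h1
  have h2 : ∀ a, ∃ b, G Z a b := fun a => G3 Z a (by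
    obtain ⟨b, hb⟩ := hex a
    exact ⟨b, (eE (a, b)).1 hb⟩)
  choose f hf using h2
  refine ⟨f, fun a => (eE (a, f a)).2 (G1 _ _ _ (hf a)), (hG.toSI Z).of_eq fun x => ?_⟩
  constructor
  · intro h
    exact G2 _ _ _ _ (hf x.1) h
  · intro h
    rw [← h]
    exact hf x.1

theorem si_dec {Z Y : ℕ → Bool} (h : TLe Z Y) : SI Y fun x : ℕ × Bool => Z x.1 = x.2 :=
  tLe_iff_SI.1 h

/-- decisions about computably enumerable predicates -/
theorem S1.dec {Z : ℕ → Bool} (hZ : TLe (jump fun _ => false) Z) {α : Type*} [Primcodable α]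
    {p : α → Prop} (hp : S1 p) : SI Z (fun a => ¬ p a) := by
  have h1 : SI (fun _ => false) p := SI.of_s1 hp
  exact h1.decide_jump.2.trans hZ

theorem si_Pr {Z : ℕ → Bool} (hZ : TLe (jump fun _ => false) Z) {X : ℕ → ℕ → Bool}
    (hX : SI Z fun x : (ℕ × ℕ) × Bool => X x.1.1 x.1.2 = x.2) :
    SI Z fun x : ((ℕ × ℕ × ℕ) × List Bool) × List Bool => Pr X x.1 x.2 := by
  have hc : Primrec fun x : ((ℕ × ℕ × ℕ) × List Bool) × List Bool => x.1.1.1 :=
    Primrec.fst.comp (Primrec.fst.comp Primrec.fst)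
  have hij : Primrec fun x : ((ℕ × ℕ × ℕ) × List Bool) × List Bool => (x.1.1.2.1, x.1.1.2.2) :=
    Primrec.snd.comp (Primrec.fst.comp Primrec.fst)
  have hσ : Primrec fun x : ((ℕ × ℕ × ℕ) × List Bool) × List Bool => x.1.2 :=
    Primrec.snd.comp Primrec.fst
  have hτ : Primrec fun x : ((ℕ × ℕ × ℕ) × List Bool) × List Bool => x.2 := Primrec.snd
  have nil : ∀ {γ : Type} [Primcodable γ], Primrec fun _ : γ => ([] : List Bool) :=
    fun {_} _ => Primrec.const []
  have hag : SI Z fun x : ℕ × List Bool => Agr (X x.1) x.2 := by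
    refine SI.all_lt (α := ℕ × List Bool) (p := fun x m => X x.1 m = x.2.getD m false)
      (f := fun x => x.2.length) ?_ (Primrec.list_length.comp Primrec.snd)
    exact hX.comp (f := fun y : (ℕ × List Bool) × ℕ => ((y.1.1, y.2), y.1.2.getD y.2 false))
      (((Primrec.fst.comp Primrec.fst).pair Primrec.snd).pair
        ((Primrec.list_getD false).comp (Primrec.snd.comp Primrec.fst) Primrec.snd))
  have hdis : SI Z fun x : ℕ × List Bool => Dis (X x.1) x.2 := by
    refine SI.ex (p := fun (x : ℕ × List Bool) (m : ℕ) => m < x.2.length ∧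
      X x.1 m = !(x.2.getD m false)) (SI.and (SI.of_prim ?_) ?_)
    · exact Primrec.nat_lt.comp Primrec.snd (Primrec.list_length.comp (Primrec.snd.comp Primrec.fst))
    · exact hX.comp (f := fun y : (ℕ × List Bool) × ℕ => ((y.1.1, y.2), !(y.1.2.getD y.2 false)))
        (((Primrec.fst.comp Primrec.fst).pair Primrec.snd).pair
          (Primrec.not.comp ((Primrec.list_getD false).comp (Primrec.snd.comp Primrec.fst)
            Primrec.snd)))
  refine SI.or ?_ (SI.or ?_ ?_)
  · refine SI.ex (p := fun (x : ((ℕ × ℕ × ℕ) × List Bool) × List Bool) (b : Bool) =>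
      x.2 = x.1.2 ++ [b] ∧ ¬ ∃ y, Cand x.1.1.2.1 x.1.1.2.2 x.1.2 b y) (SI.and (SI.of_prim ?_) ?_)
    · exact Primrec.eq.comp (hτ.comp Primrec.fst)
        (Primrec.list_append.comp (hσ.comp Primrec.fst) (Primrec.list_cons.comp Primrec.snd nil))
    · refine S1.dec hZ (p := fun (x : (((ℕ × ℕ × ℕ) × List Bool) × List Bool) × Bool) =>
        ∃ y, Cand x.1.1.1.2.1 x.1.1.1.2.2 x.1.1.2 x.2 y) (S1.ex ?_)
      exact s1_Cand.comp (f := fun z : ((((ℕ × ℕ × ℕ) × List Bool) × List Bool) × Bool) ×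
        List Bool × List Bool × Bool => ((((z.1.1.1.1.2.1, z.1.1.1.1.2.2), z.1.1.1.2), z.1.2), z.2))
        ((((hij.comp (Primrec.fst.comp Primrec.fst)).pair
          (hσ.comp (Primrec.fst.comp Primrec.fst))).pair
            (Primrec.snd.comp Primrec.fst)).pair Primrec.snd)
  · refine SI.ex (p := fun (x : ((ℕ × ℕ × ℕ) × List Bool) × List Bool) (b : Bool) =>
      ∃ z : List Bool × Bool, Cand x.1.1.2.1 x.1.1.2.2 x.1.2 b (x.2, z.1, z.2) ∧
        (z.2 = !b ∨ Dis (X x.1.1.1) z.1)) ?_
    refine SI.ex (p := fun (x : (((ℕ × ℕ × ℕ) × List Bool) × List Bool) × Bool)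
      (z : List Bool × Bool) => Cand x.1.1.1.2.1 x.1.1.1.2.2 x.1.1.2 x.2 (x.1.2, z.1, z.2) ∧
        (z.2 = !x.2 ∨ Dis (X x.1.1.1.1) z.1)) (SI.and (SI.of_s1 ?_) (SI.or (SI.of_prim ?_) ?_))
    · exact s1_Cand.comp (f := fun z : ((((ℕ × ℕ × ℕ) × List Bool) × List Bool) × Bool) ×
        List Bool × Bool => ((((z.1.1.1.1.2.1, z.1.1.1.1.2.2), z.1.1.1.2), z.1.2),
          (z.1.1.2, z.2.1, z.2.2)))
        ((((hij.comp (Primrec.fst.comp Primrec.fst)).pair
          (hσ.comp (Primrec.fst.comp Primrec.fst))).pair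
            (Primrec.snd.comp Primrec.fst)).pair ((hτ.comp (Primrec.fst.comp Primrec.fst)).pair
              Primrec.snd))
    · exact Primrec.eq.comp (Primrec.snd.comp Primrec.snd)
        (Primrec.not.comp (Primrec.snd.comp Primrec.fst))
    · exact hdis.comp (f := fun z : ((((ℕ × ℕ × ℕ) × List Bool) × List Bool) × Bool) ×
        List Bool × Bool => (z.1.1.1.1.1, z.2.1))
        ((hc.comp (Primrec.fst.comp Primrec.fst)).pair (Primrec.fst.comp Primrec.snd))
  · refine SI.and (SI.of_prim ?_) ?_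
    · exact Primrec.eq.comp hτ (Primrec.list_append.comp hσ (Primrec.const [false]))
    · have hb : ∀ b0 : Bool, SI Z fun z : (((ℕ × ℕ × ℕ) × List Bool) × List Bool) ×
          List Bool × List Bool × Bool => Cand z.1.1.1.2.1 z.1.1.1.2.2 z.1.1.2 b0 z.2 ∧
            z.2.2.2 = b0 ∧ Agr (X z.1.1.1.1) z.2.2.1 := by
        intro b0
        refine SI.and (SI.of_s1 ?_) (SI.and (SI.of_prim ?_) ?_)
        · exact s1_Cand.comp (f := fun z : (((ℕ × ℕ × ℕ) × List Bool) × List Bool) ×
            List Bool × List Bool × Bool => ((((z.1.1.1.2.1, z.1.1.1.2.2), z.1.1.2), b0), z.2))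
            ((((hij.comp Primrec.fst).pair (hσ.comp Primrec.fst)).pair
              (Primrec.const b0)).pair Primrec.snd)
        · exact Primrec.eq.comp (Primrec.snd.comp (Primrec.snd.comp Primrec.snd))
            (Primrec.const b0)
        · exact hag.comp (f := fun z : (((ℕ × ℕ × ℕ) × List Bool) × List Bool) ×
            List Bool × List Bool × Bool => (z.1.1.1.1, z.2.2.1))
            ((hc.comp Primrec.fst).pair (Primrec.fst.comp (Primrec.snd.comp Primrec.snd)))
      refine SI.ex (p := fun (x : ((ℕ × ℕ × ℕ) × List Bool) × List Bool)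
        (y : List Bool × List Bool × Bool) => ∃ y' : List Bool × List Bool × Bool,
        (Cand x.1.1.2.1 x.1.1.2.2 x.1.2 false y ∧ y.2.2 = false ∧ Agr (X x.1.1.1) y.2.1) ∧
        (Cand x.1.1.2.1 x.1.1.2.2 x.1.2 true y' ∧ y'.2.2 = true ∧ Agr (X x.1.1.1) y'.2.1)) ?_
      refine SI.ex (p := fun (x : (((ℕ × ℕ × ℕ) × List Bool) × List Bool) ×
        List Bool × List Bool × Bool) (y' : List Bool × List Bool × Bool) =>
        (Cand x.1.1.1.2.1 x.1.1.1.2.2 x.1.1.2 false x.2 ∧ x.2.2.2 = false ∧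
          Agr (X x.1.1.1.1) x.2.2.1) ∧
        (Cand x.1.1.1.2.1 x.1.1.1.2.2 x.1.1.2 true y' ∧ y'.2.2 = true ∧
          Agr (X x.1.1.1.1) y'.2.1)) (SI.and ?_ ?_)
      · exact (hb false).comp (f := fun z : ((((ℕ × ℕ × ℕ) × List Bool) × List Bool) ×
          List Bool × List Bool × Bool) × List Bool × List Bool × Bool => z.1) Primrec.fst
      · exact (hb true).comp (f := fun z : ((((ℕ × ℕ × ℕ) × List Bool) × List Bool) ×
          List Bool × List Bool × Bool) × List Bool × List Bool × Bool => (z.1.1, z.2))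
          ((Primrec.fst.comp Primrec.fst).pair Primrec.snd)

/-- **Diagonalization.** No sequence of sets uniformly computable in an oracle `Z` above the
halting problem contains representatives of all degrees below the degree of `Z`. -/
theorem diag {Z : ℕ → Bool} (hZ : TLe (jump fun _ => false) Z) {X : ℕ → ℕ → Bool}
    (hX : SI Z fun x : (ℕ × ℕ) × Bool => X x.1.1 x.1.2 = x.2) :
    ∃ D : ℕ → Bool, TLe D Z ∧ ∀ c, ¬ (TLe D (X c) ∧ TLe (X c) D) := by
  obtain ⟨nx, hnx, gnx⟩ := SI_choose (P := fun a τ => Pr X a τ) (si_Pr hZ hX) (exists_Pr X)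
  let rq : ℕ → ℕ × ℕ × ℕ := fun s => (s.unpair.1, s.unpair.2.unpair.1, s.unpair.2.unpair.2)
  have hrq : Primrec rq := (Primrec.fst.comp Primrec.unpair).pair
    (Primrec.unpair.comp (Primrec.snd.comp Primrec.unpair))
  let S : ℕ → List Bool := fun n => Nat.rec [] (fun s σ => nx (rq s, σ)) n
  have S0 : S 0 = [] := rfl
  have S1' : ∀ s, S (s + 1) = nx (rq s, S s) := fun s => rfl
  have hP : ∀ s, Pr X (rq s, S s) (S (s + 1)) := fun s => hnx _
  have hpf : ∀ s, S s <+: S (s + 1) := by
    intro s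
    obtain ⟨b, hb⟩ := Pr_prefix (hP s)
    exact (List.prefix_append _ _).trans hb
  have hle : ∀ s t, s ≤ t → S s <+: S t := by
    intro s t h
    induction h with
    | refl => exact List.prefix_rfl
    | step _ ih => exact ih.trans (hpf _)
  have hlen : ∀ s, s ≤ (S s).length := by
    intro s
    induction s with
    | zero => exact Nat.zero_le _
    | succ s ih =>
      obtain ⟨b, hb⟩ := Pr_prefix (hP s)
      have := hb.length_le
      simp only [List.length_append, List.length_cons, List.length_nil] at this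
      omega
  let D : ℕ → Bool := fun i => (S (i + 1)).getD i false
  have hD : ∀ s i, i < (S s).length → D i = (S s).getD i false := by
    intro s i hi
    have h1 : i < (S (i + 1)).length := hlen (i + 1)
    rcases le_total s (i + 1) with h | h
    · obtain ⟨ρ, hρ⟩ := hle _ _ h
      show (S (i + 1)).getD i false = _
      rw [← hρ, List.getD_append _ _ _ _ hi]
    · obtain ⟨ρ, hρ⟩ := hle _ _ h
      show (S (i + 1)).getD i false = _
      rw [← hρ, List.getD_append _ _ _ _ h1]
  have hpre : ∀ s, pre D (S s).length = S s := by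
    intro s
    refine List.ext_getElem (by simp) fun i h5 h6 => ?_
    rw [getElem_pre, hD s i h6]
    simp [h6]
  refine ⟨D, ?_, ?_⟩
  · rw [tLe_iff_SI]
    have h1 : SI Z fun x : ℕ × Bool => ∃ L : List (List Bool), (L.getD 0 [] = [] ∧
        ∀ s < x.1 + 1, nx (rq s, L.getD s []) = L.getD (s + 1) []) ∧
        (L.getD (x.1 + 1) []).getD x.1 false = x.2 := by
      refine SI.ex (p := fun (x : ℕ × Bool) (L : List (List Bool)) => (L.getD 0 [] = [] ∧
        ∀ s < x.1 + 1, nx (rq s, L.getD s []) = L.getD (s + 1) []) ∧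
        (L.getD (x.1 + 1) []).getD x.1 false = x.2) (SI.and (SI.and (SI.of_prim ?_) ?_)
          (SI.of_prim ?_))
      · exact Primrec.eq.comp ((Primrec.list_getD []).comp Primrec.snd (Primrec.const 0))
          (Primrec.const [])
      · refine SI.all_lt (α := (ℕ × Bool) × List (List Bool)) (p := fun x s =>
          nx (rq s, x.2.getD s []) = x.2.getD (s + 1) []) (f := fun x => x.1.1 + 1) ?_
          (Primrec.succ.comp (Primrec.fst.comp Primrec.fst))
        exact gnx.comp (f := fun y : ((ℕ × Bool) × List (List Bool)) × ℕ =>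
          ((rq y.2, y.1.2.getD y.2 []), y.1.2.getD (y.2 + 1) []))
          (((hrq.comp Primrec.snd).pair ((Primrec.list_getD []).comp
            (Primrec.snd.comp Primrec.fst) Primrec.snd)).pair
              ((Primrec.list_getD []).comp (Primrec.snd.comp Primrec.fst)
                (Primrec.succ.comp Primrec.snd)))
      · exact Primrec.eq.comp ((Primrec.list_getD false).comp ((Primrec.list_getD []).comp
          Primrec.snd (Primrec.succ.comp (Primrec.fst.comp Primrec.fst)))
            (Primrec.fst.comp Primrec.fst)) (Primrec.snd.comp Primrec.fst)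
    refine h1.of_eq fun x => ?_
    obtain ⟨m, b⟩ := x
    simp only
    constructor
    · rintro ⟨L, ⟨h2, h3⟩, h4⟩
      have h5 : ∀ s, s ≤ m + 1 → L.getD s [] = S s := by
        intro s
        induction s with
        | zero => intro _; exact h2
        | succ s ih =>
          intro hs
          rw [← h3 s (by omega), ih (by omega), S1']
      rw [h5 (m + 1) le_rfl] at h4
      exact h4
    · intro h4
      have h6 : ∀ s, s ≤ m + 1 → ((List.range (m + 2)).map S).getD s [] = S s := by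
        intro s hs
        simp [List.getD, Nat.lt_succ_of_le hs]
      refine ⟨(List.range (m + 2)).map S, ⟨?_, ?_⟩, ?_⟩
      · exact h6 0 (Nat.zero_le _)
      · intro s hs
        rw [h6 s (by omega), h6 (s + 1) (by omega), S1']
      · rw [h6 (m + 1) le_rfl]
        exact h4
  · rintro c ⟨h1, h2⟩
    obtain ⟨j, hj⟩ := exists_Hf h1
    obtain ⟨i, hi⟩ := exists_Hf h2
    have h3 := hP (Nat.pair c (Nat.pair i j))
    have h4 : rq (Nat.pair c (Nat.pair i j)) = (c, i, j) := by simp [rq]
    rw [h4] at h3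
    exact Pr_sat h3 (hpre (Nat.pair c (Nat.pair i j) + 1)) ⟨hi, hj⟩

end Pool.Agent.U95.TD
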