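import Pool.Agent.U95.TD.Theory

/-! Not every degree below `0^(ω)` is the degree of a complete theory with a computable model. -/

set_option autoImplicit false

namespace Pool.Agent.U95.TD

open Encodable
open Nat.Partrec (Code)
open Pool.Agent.Helper227 Pool.Agent.H685R3
open Pool.Agent.Helper750.DC (Lang Fml)
open Pool.Agent.Helper750 Pool.Agent.Helper750.DC
open Pool.Agent.Helper446.RE
open Pool.Agent.Helper750.CT (IsSent codes)

/-! ### formulas of the language -/

/-- formulas of the language, by codes -/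
noncomputable def lf (L : Lang) (n : ℕ) : Bool :=
  open Classical in decide (InL L (FO.num n))

/-- recursion step -/
def lg (L : Lang) (_ : ℕ) (l : List Bool) : Option Bool :=
  bif decide (l.length.unpair.1 = 0) then
    some (decide (L.rel l.length.unpair.2.unpair.1 =
      some (Denumerable.ofNat (List ℕ) l.length.unpair.2.unpair.2).length))
  else bif decide (l.length.unpair.1 = 1) then
    some (decide (L.fn l.length.unpair.2.unpair.1 =
      some (Denumerable.ofNat (List ℕ) l.length.unpair.2.unpair.2.unpair.2).length))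
  else bif decide (l.length.unpair.1 = 2) then some true
  else bif decide (l.length.unpair.1 = 3) then l[l.length.unpair.2]?
  else bif decide (l.length.unpair.1 = 4) then
    some (((l[l.length.unpair.2.unpair.1]?).getD false) &&
      ((l[l.length.unpair.2.unpair.2]?).getD false))
  else l[l.length.unpair.2]?

theorem lg_comp {L : Lang} (hL : L.IsComputable) : Computable₂ (lg L) := by
  have h1 : ∀ k : ℕ, Computable fun q : ℕ × List Bool =>
      decide (q.2.length.unpair.1 = k) := fun k => cdecide (cp_eq (by fun_prop) (by fun_prop))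
  have h2 : Computable fun q : ℕ × List Bool =>
      decide (L.rel q.2.length.unpair.2.unpair.1 =
        some (Denumerable.ofNat (List ℕ) q.2.length.unpair.2.unpair.2).length) :=
    cdecide (cp_eq (hL.1.comp (by fun_prop)) (by fun_prop))
  have h3 : Computable fun q : ℕ × List Bool =>
      decide (L.fn q.2.length.unpair.2.unpair.1 =
        some (Denumerable.ofNat (List ℕ) q.2.length.unpair.2.unpair.2.unpair.2).length) :=
    cdecide (cp_eq (hL.2.comp (by fun_prop)) (by fun_prop))
  have h8 : ∀ {f : ℕ × List Bool → Option Bool}, Computable f →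
      Computable fun x => (f x).getD false := fun {f} hf =>
    Computable.option_getD hf (Computable.const false)
  unfold lg
  refine ccond (h1 0) (csome h2) (ccond (h1 1) (csome h3) (ccond (h1 2)
    (by fun_prop) (ccond (h1 3) (by fun_prop) (ccond (h1 4) (csome (cand (h8 (by fun_prop))
    (h8 (by fun_prop)))) (by fun_prop)))))

theorem lf_comp {L : Lang} (hL : L.IsComputable) : Computable (lf L) := by
  classical
  have h0 : Computable₂ fun (_ : ℕ) n => lf L n := by
    refine Computable.nat_strong_rec (fun _ n => lf L n) (g := lg L) (lg_comp hL) ?_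
    intro a n
    have hget : ∀ r, r < n → ((List.range n).map (fun n => lf L n))[r]? = some (lf L r) := by
      intro r hr
      rw [List.getElem?_map, List.getElem?_range hr]
      rfl
    obtain ⟨φ, hφ⟩ := FO.code_surj n
    have hn : lf L n = decide (InL L φ) := by
      unfold lf
      rw [← hφ, FO.num_code]
    rw [hn]
    unfold lg
    simp only [List.length_map, List.length_range]
    cases φ with
    | rel i vs =>
      rw [← hφ]
      simp [Fml.code, InL]
    | fn i vs w =>
      rw [← hφ]
      simp [Fml.code, InL]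
    | eq v w =>
      rw [← hφ]
      simp [Fml.code, InL]
    | not ψ =>
      have h1 : n.unpair = (3, ψ.code) := by rw [← hφ]; simp [Fml.code]
      have h2 : ψ.code < n := by
        have := Nat.add_le_pair 3 ψ.code
        rw [← hφ]
        simp only [Fml.code]
        omega
      have h3 := hget _ h2
      rw [h1]
      simp only [h3]
      simp [lf, InL]
    | and ψ χ =>
      have h1 : n.unpair = (4, Nat.pair ψ.code χ.code) := by rw [← hφ]; simp [Fml.code]
      have h2 : Nat.pair ψ.code χ.code < n := by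
        have := Nat.add_le_pair 4 (Nat.pair ψ.code χ.code)
        rw [← hφ]
        simp only [Fml.code]
        omega
      have h3 := hget _ (lt_of_le_of_lt (Nat.left_le_pair ψ.code χ.code) h2)
      have h4 := hget _ (lt_of_le_of_lt (Nat.right_le_pair ψ.code χ.code) h2)
      rw [h1]
      simp only [Nat.unpair_pair, h3, h4]
      simp [lf, InL]
    | ex u ψ =>
      have h1 : n.unpair = (5 + u, ψ.code) := by rw [← hφ]; simp [Fml.code]
      have h2 : ψ.code < n := by
        have := Nat.add_le_pair (5 + u) ψ.code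
        rw [← hφ]
        simp only [Fml.code]
        omega
      have h3 := hget _ h2
      rw [h1]
      have h5 : ∀ k, k < 5 → ¬ (5 + u = k) := by intro k hk; omega
      simp only [h3, h5 0 (by norm_num), h5 1 (by norm_num), h5 2 (by norm_num),
        h5 3 (by norm_num), h5 4 (by norm_num), decide_false, cond_false]
      simp [lf, InL]
  exact h0.comp (Computable.const 0) Computable.id

theorem lf_code (L : Lang) (φ : Fml) : lf L φ.code = true ↔ InL L φ := by
  simp [lf]

/-! ### indices for structures -/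

theorem exists_code_G {g : ℕ × ℕ × List ℕ × ℕ → Bool} (hg : Computable g) :
    ∃ q : Code, ∀ y, G q y ↔ g y = true := by
  have h : Computable fun n : ℕ => cond (g ((decode (α := ℕ × ℕ × List ℕ × ℕ) n).getD
      (0, 0, [], 0))) 1 0 := by
    refine ccond (hg.comp (Computable.option_getD Computable.decode (Computable.const _)))
      (Computable.const 1) (Computable.const 0)
  obtain ⟨q, hq⟩ := Code.exists_code.1 (Partrec.nat_iff.1 h)
  refine ⟨q, fun y => ?_⟩
  unfold G
  rw [hq]
  have h1 : (decode (encode y) : Option (ℕ × ℕ × List ℕ × ℕ)) = some y := encodek y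
  show 1 ∈ Part.some (cond (g ((decode (α := ℕ × ℕ × List ℕ × ℕ) (encode y)).getD
      (0, 0, [], 0))) 1 0) ↔ _
  rw [h1]
  cases hy : g y <;> simp [hy]

theorem exists_index {L : Lang} {A : UStr} (hL : L.IsComputable) (hA : IsComputableUStr L A) :
    ∃ q : Code,
      (∀ i vs, (∀ v ∈ vs, v ∈ A.U) → (G q (0, i, vs, 0) ↔ L.rel i = some vs.length ∧ A.R i vs)) ∧
      (∀ i vs w, (∀ v ∈ vs, v ∈ A.U) →
        (G q (1, i, vs, w) ↔ L.fn i = some vs.length ∧ A.F i vs = w)) ∧
      (∀ a, G q (2, a, [], 0) ↔ a ∈ A.U) ∧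
      ∀ φ : Fml, G q (3, φ.code, [], 0) ↔ InL L φ ∧ IsSent φ := by
  obtain ⟨⟨hdec, hU⟩, ⟨d, hd, ed⟩, e, he, ee⟩ := hA
  obtain ⟨s, hs, es⟩ := Pool.Agent.Helper750.CT.Th_K_sent
  let g : ℕ × ℕ × List ℕ × ℕ → Bool := fun y =>
    bif decide (y.1 = 0) then decide (L.rel y.2.1 = some y.2.2.1.length) && d (y.2.1, y.2.2.1)
    else bif decide (y.1 = 1) then
      decide (L.fn y.2.1 = some y.2.2.1.length) && decide (e (y.2.1, y.2.2.1) = y.2.2.2)
    else bif decide (y.1 = 2) then decide (y.2.1 ∈ A.U)
    else lf L y.2.1 && s y.2.1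
  have hg : Computable g := by
    have h1 : ∀ k : ℕ, Computable fun y : ℕ × ℕ × List ℕ × ℕ =>
      decide (y.1 = k) := fun k => cdecide (cp_eq (by fun_prop) (by fun_prop))
    have hp : Computable fun y : ℕ × ℕ × List ℕ × ℕ => (y.2.1, y.2.2.1) := by fun_prop
    refine ccond (h1 0) (cand (cdecide (cp_eq (hL.1.comp (by fun_prop)) (by fun_prop)))
      (hd.comp hp)) (ccond (h1 1) (cand (cdecide (cp_eq (hL.2.comp (by fun_prop)) (by fun_prop)))
      (cdecide (cp_eq (he.comp hp) (by fun_prop)))) (ccond (h1 2) (hU.comp (by fun_prop))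
      (cand ((lf_comp hL).comp (by fun_prop)) (hs.comp (by fun_prop)))))
  obtain ⟨q, hq⟩ := exists_code_G hg
  refine ⟨q, fun i vs hvs => ?_, fun i vs w hvs => ?_, fun a => ?_, fun φ => ?_⟩
  · rw [hq]
    simp only [g, decide_true, cond_true, Bool.and_eq_true, decide_eq_true_eq]
    constructor
    · rintro ⟨h1, h2⟩
      exact ⟨h1, (ed i vs h1 hvs).1 h2⟩
    · rintro ⟨h1, h2⟩
      exact ⟨h1, (ed i vs h1 hvs).2 h2⟩
  · rw [hq]
    simp only [g, decide_true, cond_true, Bool.and_eq_true, decide_eq_true_eq, one_ne_zero,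
      decide_false, cond_false]
    constructor
    · rintro ⟨h1, h2⟩
      exact ⟨h1, by rw [← ee i vs h1 hvs]; exact h2⟩
    · rintro ⟨h1, h2⟩
      exact ⟨h1, by rw [ee i vs h1 hvs]; exact h2⟩
  · rw [hq]
    simp [g]
  · rw [hq]
    simp only [g]
    simp [lf_code, es]

theorem SatC_iff {L : Lang} {A : UStr} {q : Code}
    (h0 : ∀ i vs, (∀ v ∈ vs, v ∈ A.U) → (G q (0, i, vs, 0) ↔ L.rel i = some vs.length ∧ A.R i vs))
    (h1 : ∀ i vs w, (∀ v ∈ vs, v ∈ A.U) →
        (G q (1, i, vs, w) ↔ L.fn i = some vs.length ∧ A.F i vs = w))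
    (h2 : ∀ a, G q (2, a, [], 0) ↔ a ∈ A.U) :
    ∀ (φ : Fml) (x : ℕ → ℕ), (∀ v, x v ∈ A.U) → (SatC q φ x ↔ USat L A φ x) := by
  intro φ
  induction φ with
  | rel i vs =>
    intro x hx
    simp only [SatC, USat]
    rw [h0 _ _ (by simpa using fun v _ => hx v)]
    simp
  | fn i vs w =>
    intro x hx
    simp only [SatC, USat]
    rw [h1 _ _ _ (by simpa using fun v _ => hx v)]
    simp
  | eq v w => intro x _; rfl
  | not φ ih => intro x hx; simp only [SatC, USat]; rw [ih x hx]
  | and φ ψ ih1 ih2 => intro x hx; simp only [SatC, USat]; rw [ih1 x hx, ih2 x hx]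
  | ex v φ ih =>
    intro x hx
    simp only [SatC, USat]
    refine exists_congr fun a => ?_
    rw [h2]
    refine and_congr_right fun ha => ih _ fun w => ?_
    by_cases hw : w = v
    · subst hw; simpa using ha
    · rw [Function.update_of_ne hw]; exact hx w

/-! ### the uniform list of theories -/

/-- indices: a program and an element of the universe -/
def di (c : ℕ) : Code × ℕ := (decode (α := Code × ℕ) c).getD (Code.zero, 0)

theorem di_encode (y : Code × ℕ) : di (encode y) = y := by
  have h : (decode (encode y) : Option (Code × ℕ)) = some y := encodek y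
  unfold di
  rw [h]
  rfl

theorem primrec_di : Primrec di := Primrec.option_getD.comp Primrec.decode (Primrec.const _)

open Classical in
/-- the list of all theories of computable structures -/
noncomputable def XX (c k : ℕ) : Bool :=
  decide (V (k + 1) (encode (((di c).1, k, (di c).2, []) : Arg)) = true ∧
    G (di c).1 (3, k, [], 0))

theorem tLe_jump_zeroOmega : TLe (jump fun _ => false) zeroOmega := by
  rw [zeroOmega_eq]
  exact tLe_jn_om _ 1

theorem si_XX : SI zeroOmega fun x : (ℕ × ℕ) × Bool => XX x.1.1 x.1.2 = x.2 := by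
  classical
  have hc : Primrec fun x : (ℕ × ℕ) × Bool => di x.1.1 :=
    primrec_di.comp (Primrec.fst.comp Primrec.fst)
  have hk : Primrec fun x : (ℕ × ℕ) × Bool => x.1.2 := Primrec.snd.comp Primrec.fst
  have hV : ∀ b : Bool, SI zeroOmega fun x : (ℕ × ℕ) × Bool =>
      V (x.1.2 + 1) (encode (((di x.1.1).1, x.1.2, (di x.1.1).2, []) : Arg)) = b := by
    intro b
    refine si_V.comp (f := fun x : (ℕ × ℕ) × Bool =>
      ((x.1.2 + 1, encode (((di x.1.1).1, x.1.2, (di x.1.1).2, []) : Arg)), b)) ?_
    exact ((Primrec.succ.comp hk).pair (Primrec.encode.comp ((Primrec.fst.comp hc).pair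
      (hk.pair ((Primrec.snd.comp hc).pair (Primrec.const [])))))).pair (Primrec.const b)
  have hs : S1 fun x : (ℕ × ℕ) × Bool => G (di x.1.1).1 (3, x.1.2, [], 0) :=
    s1_G.comp (f := fun x : (ℕ × ℕ) × Bool => ((di x.1.1).1, ((3 : ℕ), x.1.2, ([] : List ℕ),
      (0 : ℕ)))) ((Primrec.fst.comp hc).pair ((Primrec.const 3).pair
        (hk.pair ((Primrec.const []).pair (Primrec.const 0)))))
  have hG : SI zeroOmega fun x : (ℕ × ℕ) × Bool => G (di x.1.1).1 (3, x.1.2, [], 0) :=
    SI.of_s1 hs
  have hG' : SI zeroOmega fun x : (ℕ × ℕ) × Bool => ¬ G (di x.1.1).1 (3, x.1.2, [], 0) :=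
    S1.dec tLe_jump_zeroOmega hs
  have hb : ∀ b : Bool, SI zeroOmega fun x : (ℕ × ℕ) × Bool => x.2 = b := fun b =>
    SI.of_prim (Primrec.eq.comp Primrec.snd (Primrec.const b))
  refine (SI.or (SI.and (hb true) (SI.and (hV true) hG))
    (SI.and (hb false) (SI.or (hV false) hG'))).of_eq fun x => ?_
  obtain ⟨⟨c, k⟩, b⟩ := x
  have hXX : XX c k = true ↔ V (k + 1) (encode (((di c).1, k, (di c).2, []) : Arg)) = true ∧
    G (di c).1 (3, k, [], 0) := by
    unfold XX
    exact decide_eq_true_iff
  simp only
  cases b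
  · rw [← Bool.not_eq_true (XX c k), hXX, not_and_or, Bool.not_eq_true]
    simp
  · rw [hXX]
    simp

theorem XX_eq {L : Lang} {T : Set Fml} (hL : L.IsComputable) (hT : IsCompleteTheory L T)
    (hM : HasComputableModel L T) : ∃ c, XX c = theoryChar T := by
  classical
  obtain ⟨A, ⟨⟨u, hu⟩, hA2⟩, hA3, hA4⟩ := hM
  obtain ⟨q, h0, h1, h2, h3⟩ := exists_index hL hA3
  refine ⟨encode (q, u), ?_⟩
  funext k
  obtain ⟨φ, rfl⟩ := FO.code_surj k
  unfold XX theoryChar
  rw [di_encode]
  have hval : val u [] = fun _ => u := by funext i; simp [val]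
  rw [decide_eq_decide, V_correct q φ (φ.code + 1) u [] (Nat.lt_succ_self _), h3, hval,
    SatC_iff h0 h1 h2 φ _ fun _ => hu]
  have hc : φ.code ∈ codes T ↔ φ ∈ T := by
    constructor
    · rintro ⟨ψ, hψ, e⟩
      rw [← FO.code_inj _ _ e]
      exact hψ
    · intro h
      exact ⟨φ, h, rfl⟩
  rw [hc]
  constructor
  · rintro ⟨h4, h5, h6⟩
    by_contra h7
    have h8 := (hT.2 φ h5 h6).1 h7
    exact hA4 _ h8 (fun _ => u) (fun _ => hu) h4
  · intro h
    exact ⟨hA4 _ h _ fun _ => hu, hT.1 φ h⟩

/-- There is a set computable in `0^(ω)` whose Turing degree is not the degree of a complete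
theory which has a computable model. -/
theorem final : ∃ D : ℕ → Bool, TLe D zeroOmega ∧
    ∀ (L : Lang) (T : Set Fml), L.IsComputable → IsCompleteTheory L T → HasComputableModel L T →
      ¬ (TLe D (theoryChar T) ∧ TLe (theoryChar T) D) := by
  obtain ⟨D, hD, h⟩ := diag tLe_jump_zeroOmega si_XX
  refine ⟨D, hD, fun L T hL hT hM h1 => ?_⟩
  obtain ⟨c, hc⟩ := XX_eq hL hT hM
  rw [← hc] at h1
  exact h c h1

end Pool.Agent.U95.TD
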