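import Pool.Agent.U95.TD.Defs
import Pool.Agent.U95.TD.Diag
import Pool.Agent.Helper750.CT.ThK

/-! The theories of computable structures are uniformly computable in `0^(ω)`. -/

set_option autoImplicit false

namespace Pool.Agent.U95.TD

open Encodable
open Nat.Partrec (Code)
open Pool.Agent.Helper227 Pool.Agent.H685R3
open Pool.Agent.Helper750.DC (Lang Fml)
open Pool.Agent.Helper750.CT (IsSent codes)

theorem zeroJump_eq (n : ℕ) : zeroJump n = jn (fun _ => false) n := by
  induction n with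
  | zero => rfl
  | succ n ih => rw [zeroJump, ih, jn]

theorem zeroOmega_eq : zeroOmega = om fun _ => false := by
  funext m
  rw [zeroOmega, om, zeroJump_eq]

/-- the atomic data of a structure, given by a program -/
def G (q : Code) (y : ℕ × ℕ × List ℕ × ℕ) : Prop := 1 ∈ q.eval (encode y)

/-- value of an assignment -/
def val (u : ℕ) (l : List (ℕ × ℕ)) (i : ℕ) : ℕ := l.foldr (fun p r => if p.1 = i then p.2 else r) u

theorem val_cons (u : ℕ) (l : List (ℕ × ℕ)) (v a : ℕ) :
    val u ((v, a) :: l) = Function.update (val u l) v a := by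
  funext i
  by_cases h : i = v
  · subst h; simp [val]
  · rw [Function.update_of_ne h]
    simp only [val, List.foldr_cons]
    rw [if_neg (Ne.symm h)]

theorem primrec_val : Primrec fun y : (ℕ × List (ℕ × ℕ)) × ℕ => val y.1.1 y.1.2 y.2 := by
  refine Primrec.list_foldr (f := fun y : (ℕ × List (ℕ × ℕ)) × ℕ => y.1.2) (g := fun y => y.1.1)
    (h := fun y p => if p.1.1 = y.2 then p.1.2 else p.2) (Primrec.snd.comp Primrec.fst)
    (Primrec.fst.comp Primrec.fst) ?_
  refine Primrec.ite (Primrec.eq.comp (Primrec.fst.comp (Primrec.fst.comp Primrec.snd))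
    (Primrec.snd.comp Primrec.fst)) (Primrec.snd.comp (Primrec.fst.comp Primrec.snd))
    (Primrec.snd.comp Primrec.snd)

/-- satisfaction in the structure given by a program -/
def SatC (q : Code) : Fml → (ℕ → ℕ) → Prop
  | .rel i vs, x => G q (0, i, vs.map x, 0)
  | .fn i vs w, x => G q (1, i, vs.map x, x w)
  | .eq v w, x => x v = x w
  | .not φ, x => ¬ SatC q φ x
  | .and φ ψ, x => SatC q φ x ∧ SatC q ψ x
  | .ex v φ, x => ∃ a, G q (2, a, [], 0) ∧ SatC q φ (Function.update x v a)

/-- the arguments of the satisfaction predicate -/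
abbrev Arg := Code × ℕ × ℕ × List (ℕ × ℕ)

/-- decoding of lists -/
def dl (n : ℕ) : List ℕ := (decode (α := List ℕ) n).getD []

theorem dl_encode (l : List ℕ) : dl (encode l) = l := by simp [dl]

/-- one step of the recursion -/
def Step (X : ℕ → Bool) (y : Arg) : Prop :=
  (y.2.1.unpair.1 = 0 ∧ G y.1 (0, y.2.1.unpair.2.unpair.1,
    (dl y.2.1.unpair.2.unpair.2).map (val y.2.2.1 y.2.2.2), 0)) ∨
  (y.2.1.unpair.1 = 1 ∧ G y.1 (1, y.2.1.unpair.2.unpair.1,
    (dl y.2.1.unpair.2.unpair.2.unpair.2).map (val y.2.2.1 y.2.2.2),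
      val y.2.2.1 y.2.2.2 y.2.1.unpair.2.unpair.2.unpair.1)) ∨
  (y.2.1.unpair.1 = 2 ∧ val y.2.2.1 y.2.2.2 y.2.1.unpair.2.unpair.1 =
    val y.2.2.1 y.2.2.2 y.2.1.unpair.2.unpair.2) ∨
  (y.2.1.unpair.1 = 3 ∧ X (encode ((y.1, y.2.1.unpair.2, y.2.2.1, y.2.2.2) : Arg)) = false) ∨
  (y.2.1.unpair.1 = 4 ∧
    X (encode ((y.1, y.2.1.unpair.2.unpair.1, y.2.2.1, y.2.2.2) : Arg)) = true ∧
    X (encode ((y.1, y.2.1.unpair.2.unpair.2, y.2.2.1, y.2.2.2) : Arg)) = true) ∨
  (5 ≤ y.2.1.unpair.1 ∧ ∃ a : ℕ, G y.1 (2, a, [], 0) ∧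
    X (encode ((y.1, y.2.1.unpair.2, y.2.2.1, (y.2.1.unpair.1 - 5, a) :: y.2.2.2) : Arg)) = true)

theorem s1_G : S1 fun x : Code × (ℕ × ℕ × List ℕ × ℕ) => G x.1 x.2 :=
  s1_graph.comp (f := fun x : Code × (ℕ × ℕ × List ℕ × ℕ) => ((x.1, encode x.2), 1))
    ((Primrec.fst.pair (Primrec.encode.comp Primrec.snd)).pair (Primrec.const 1))

theorem primrec_dl : Primrec dl := Primrec.option_getD.comp Primrec.decode (Primrec.const [])

theorem primrec_map_val {α : Type} [Primcodable α] {f : α → List ℕ} {u : α → ℕ}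
    {l : α → List (ℕ × ℕ)} (hf : Primrec f) (hu : Primrec u) (hl : Primrec l) :
    Primrec fun a => (f a).map (val (u a) (l a)) := by
  have h : Primrec₂ fun (a : α) (n : ℕ) => val (u a) (l a) n :=
    primrec_val.comp (((hu.comp Primrec.fst).pair (hl.comp Primrec.fst)).pair Primrec.snd)
  exact Primrec.list_map hf h

theorem us_Step : US Step := by
  have hq : Primrec fun y : Arg => y.1 := Primrec.fst
  have hk : Primrec fun y : Arg => y.2.1 := Primrec.fst.comp Primrec.snd
  have hu : Primrec fun y : Arg => y.2.2.1 := Primrec.fst.comp (Primrec.snd.comp Primrec.snd)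
  have hl : Primrec fun y : Arg => y.2.2.2 := Primrec.snd.comp (Primrec.snd.comp Primrec.snd)
  have h1 : Primrec fun y : Arg => y.2.1.unpair.1 := Primrec.fst.comp (Primrec.unpair.comp hk)
  have h2 : Primrec fun y : Arg => y.2.1.unpair.2 := Primrec.snd.comp (Primrec.unpair.comp hk)
  have h21 : Primrec fun y : Arg => y.2.1.unpair.2.unpair.1 :=
    Primrec.fst.comp (Primrec.unpair.comp h2)
  have h22 : Primrec fun y : Arg => y.2.1.unpair.2.unpair.2 :=
    Primrec.snd.comp (Primrec.unpair.comp h2)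
  have h221 : Primrec fun y : Arg => y.2.1.unpair.2.unpair.2.unpair.1 :=
    Primrec.fst.comp (Primrec.unpair.comp h22)
  have h222 : Primrec fun y : Arg => y.2.1.unpair.2.unpair.2.unpair.2 :=
    Primrec.snd.comp (Primrec.unpair.comp h22)
  have hv : ∀ {f : Arg → ℕ}, Primrec f → Primrec fun y : Arg => val y.2.2.1 y.2.2.2 (f y) :=
    fun {f} hf => primrec_val.comp ((hu.pair hl).pair hf)
  have e1 : ∀ n : ℕ, PrimrecPred fun y : Arg => y.2.1.unpair.1 = n :=
    fun n => Primrec.eq.comp h1 (Primrec.const n)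
  have hX : ∀ (b : Bool) {f : Arg → ℕ}, Primrec f → US fun X (y : Arg) => X (f y) = b :=
    fun b {f} hf => US.query.comp (f := fun y : Arg => (f y, b)) (hf.pair (Primrec.const b))
  refine US.or (US.and (US.of_prim (e1 0)) (US.of_s1 ?_)) (US.or (US.and (US.of_prim (e1 1))
    (US.of_s1 ?_)) (US.or (US.and (US.of_prim (e1 2)) (US.of_prim ?_)) (US.or (US.and
      (US.of_prim (e1 3)) ?_) (US.or (US.and (US.of_prim (e1 4)) (US.and ?_ ?_))
        (US.and (US.of_prim ?_) ?_)))))
  · exact s1_G.comp (f := fun y : Arg => (y.1, ((0 : ℕ), y.2.1.unpair.2.unpair.1,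
      (dl y.2.1.unpair.2.unpair.2).map (val y.2.2.1 y.2.2.2), (0 : ℕ))))
      (hq.pair ((Primrec.const 0).pair (h21.pair
        ((primrec_map_val (primrec_dl.comp h22) hu hl).pair (Primrec.const 0)))))
  · exact s1_G.comp (f := fun y : Arg => (y.1, ((1 : ℕ), y.2.1.unpair.2.unpair.1,
      (dl y.2.1.unpair.2.unpair.2.unpair.2).map (val y.2.2.1 y.2.2.2),
        val y.2.2.1 y.2.2.2 y.2.1.unpair.2.unpair.2.unpair.1)))
      (hq.pair ((Primrec.const 1).pair (h21.pair
        ((primrec_map_val (primrec_dl.comp h222) hu hl).pair (hv h221)))))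
  · exact Primrec.eq.comp (hv h21) (hv h22)
  · exact hX false (Primrec.encode.comp (hq.pair (h2.pair (hu.pair hl))))
  · exact hX true (Primrec.encode.comp (hq.pair (h21.pair (hu.pair hl))))
  · exact hX true (Primrec.encode.comp (hq.pair (h22.pair (hu.pair hl))))
  · exact Primrec.nat_le.comp (Primrec.const 5) h1
  · refine US.ex (p := fun X (y : Arg) (a : ℕ) => G y.1 (2, a, [], 0) ∧
      X (encode ((y.1, y.2.1.unpair.2, y.2.2.1, (y.2.1.unpair.1 - 5, a) :: y.2.2.2) : Arg)) = true)
      (US.and (US.of_s1 ?_) ?_)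
    · exact s1_G.comp (f := fun z : Arg × ℕ => (z.1.1, ((2 : ℕ), z.2, ([] : List ℕ), (0 : ℕ))))
        ((hq.comp Primrec.fst).pair ((Primrec.const 2).pair (Primrec.snd.pair
          ((Primrec.const []).pair (Primrec.const 0)))))
    · refine US.query.comp (f := fun z : Arg × ℕ =>
        (encode ((z.1.1, z.1.2.1.unpair.2, z.1.2.2.1,
          (z.1.2.1.unpair.1 - 5, z.2) :: z.1.2.2.2) : Arg), true)) ?_
      refine Primrec.pair (Primrec.encode.comp ((hq.comp Primrec.fst).pair
        ((h2.comp Primrec.fst).pair ((hu.comp Primrec.fst).pair (Primrec.list_cons.comp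
          ?_ (hl.comp Primrec.fst)))))) (Primrec.const true)
      exact (Primrec.nat_sub.comp (h1.comp Primrec.fst) (Primrec.const 5)).pair Primrec.snd

/-- decoding of arguments -/
def da (m : ℕ) : Arg := (decode (α := Arg) m).getD (Code.zero, 0, 0, [])

theorem da_encode (y : Arg) : da (encode y) = y := by
  have h : (decode (encode y) : Option Arg) = some y := encodek y
  unfold da
  rw [h]
  rfl

theorem primrec_da : Primrec da := Primrec.option_getD.comp Primrec.decode (Primrec.const _)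

open Classical in
/-- The approximations to the satisfaction predicate. -/
noncomputable def V : ℕ → ℕ → Bool
  | 0 => fun _ => false
  | n + 1 => fun m => decide (Step (V n) (da m))

theorem V_succ (n : ℕ) (y : Arg) : V (n + 1) (encode y) = true ↔ Step (V n) y := by
  simp [V, da_encode]

theorem V_correct (q : Code) : ∀ (φ : Fml) (n u : ℕ) (l : List (ℕ × ℕ)), φ.code < n →
    (V n (encode ((q, φ.code, u, l) : Arg)) = true ↔ SatC q φ (val u l)) := by
  intro φ
  induction φ with
  | rel i vs =>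
    intro n u l hn
    obtain ⟨n, rfl⟩ : ∃ n', n = n' + 1 := ⟨n - 1, by omega⟩
    rw [V_succ]
    simp [Step, Fml.code, SatC, dl_encode]
  | fn i vs w =>
    intro n u l hn
    obtain ⟨n, rfl⟩ : ∃ n', n = n' + 1 := ⟨n - 1, by omega⟩
    rw [V_succ]
    simp [Step, Fml.code, SatC, dl_encode]
  | eq v w =>
    intro n u l hn
    obtain ⟨n, rfl⟩ : ∃ n', n = n' + 1 := ⟨n - 1, by omega⟩
    rw [V_succ]
    simp [Step, Fml.code, SatC]
  | not φ ih =>
    intro n u l hn
    obtain ⟨n, rfl⟩ : ∃ n', n = n' + 1 := ⟨n - 1, by omega⟩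
    rw [V_succ]
    have h1 : φ.code < n := by
      have := Nat.add_le_pair 3 φ.code
      simp only [Fml.code] at hn
      omega
    have h2 := ih n u l h1
    simp only [Step, Fml.code, SatC, Nat.unpair_pair]
    rw [← h2]
    simp
  | and φ ψ ih1 ih2 =>
    intro n u l hn
    obtain ⟨n, rfl⟩ : ∃ n', n = n' + 1 := ⟨n - 1, by omega⟩
    rw [V_succ]
    have h0 := Nat.add_le_pair 4 (Nat.pair φ.code ψ.code)
    have h0' := Nat.add_le_pair φ.code ψ.code
    simp only [Fml.code] at hn
    have h1 := ih1 n u l (by omega)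
    have h2 := ih2 n u l (by omega)
    simp only [Step, Fml.code, SatC, Nat.unpair_pair]
    rw [← h1, ← h2]
    simp
  | ex v φ ih =>
    intro n u l hn
    obtain ⟨n, rfl⟩ : ∃ n', n = n' + 1 := ⟨n - 1, by omega⟩
    rw [V_succ]
    have h0 := Nat.add_le_pair (5 + v) φ.code
    simp only [Fml.code] at hn
    have h1 := fun a => ih n u ((v, a) :: l) (by omega)
    simp only [Step, Fml.code, SatC, Nat.unpair_pair]
    have h2 : 5 + v - 5 = v := by omega
    rw [h2]
    simp only [h1, val_cons]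
    constructor
    · rintro (⟨h, _⟩ | ⟨h, _⟩ | ⟨h, _⟩ | ⟨h, _⟩ | ⟨h, _⟩ | ⟨_, h⟩)
      · omega
      · omega
      · omega
      · omega
      · omega
      · exact h
    · intro h
      exact Or.inr (Or.inr (Or.inr (Or.inr (Or.inr ⟨by omega, h⟩))))

/-- The approximations are uniformly computable in `0^(ω)`. -/
theorem si_V : SI zeroOmega fun x : (ℕ × ℕ) × Bool => V x.1.1 x.1.2 = x.2 := by
  rw [zeroOmega_eq]
  let z : ℕ → Bool := fun _ => false
  obtain ⟨f, hf, ef⟩ := us_Step.to_jump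
  obtain ⟨g, hg, eg⟩ := exists_gj
  have hgf : Primrec fun y : Code × ℕ => g (y.1, f (da y.2)) :=
    hg.comp (Primrec.fst.pair (hf.comp (primrec_da.comp Primrec.snd)))
  obtain ⟨s, hs, es⟩ := exists_smn hgf
  obtain ⟨c0, hc0⟩ := Code.exists_code.1 (Nat.Partrec.of_primrec (Primrec.nat_iff.1
    (Primrec.id (α := ℕ))))
  have key : ∀ n i, ∃ m, m ∈ (s^[n] c0).eval i ∧ V n i = jn z n m := by
    intro n
    induction n with
    | zero =>
      intro i
      refine ⟨i, ?_, rfl⟩
      rw [Function.iterate_zero, id, hc0]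
      simp
    | succ n ih =>
      intro i
      refine ⟨g (s^[n] c0, f (da i)), ?_, ?_⟩
      · rw [Function.iterate_succ_apply']
        exact es _ _
      · have h1 := eg _ _ _ ih (f (da i))
        have h2 : V (n + 1) i = jump (V n) (f (da i)) := by
          have h3 := ef (V n) (da i)
          simp only [V]
          cases h4 : jump (V n) (f (da i))
          · rw [h4] at h3
            simpa using h3
          · rw [h4] at h3
            simpa using h3
        rw [h2, h1]
        rfl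
  have hit : Primrec fun x : (ℕ × ℕ) × Bool => s^[x.1.1] c0 :=
    Primrec.nat_iterate (f := fun x : (ℕ × ℕ) × Bool => x.1.1) (g := fun _ => c0)
      (h := fun _ c => s c) (Primrec.fst.comp Primrec.fst) (Primrec.const c0)
        (hs.comp Primrec.snd)
  have h1 : SI (om z) fun x : (ℕ × ℕ) × Bool => ∃ m, m ∈ (s^[x.1.1] c0).eval x.1.2 ∧
      om z (Nat.pair x.1.1 m) = x.2 := by
    refine SI.ex (p := fun (x : (ℕ × ℕ) × Bool) (m : ℕ) => m ∈ (s^[x.1.1] c0).eval x.1.2 ∧
      om z (Nat.pair x.1.1 m) = x.2) (SI.and (SI.of_s1 ?_) ?_)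
    · exact s1_graph.comp (f := fun y : ((ℕ × ℕ) × Bool) × ℕ =>
        ((s^[y.1.1.1] c0, y.1.1.2), y.2)) (((hit.comp Primrec.fst).pair
          (Primrec.snd.comp (Primrec.fst.comp Primrec.fst))).pair Primrec.snd)
    · exact SI.query.comp (f := fun y : ((ℕ × ℕ) × Bool) × ℕ =>
        (Nat.pair y.1.1.1 y.2, y.1.2)) ((Primrec₂.natPair.comp
          (Primrec.fst.comp (Primrec.fst.comp Primrec.fst)) Primrec.snd).pair
            (Primrec.snd.comp Primrec.fst))
  refine h1.of_eq fun x => ?_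
  obtain ⟨⟨n, i⟩, b⟩ := x
  simp only
  obtain ⟨m, hm1, hm2⟩ := key n i
  constructor
  · rintro ⟨m', h2, h3⟩
    rw [om_pair] at h3
    rw [Part.mem_unique h2 hm1] at h3
    rw [hm2, h3]
  · intro h
    refine ⟨m, hm1, ?_⟩
    rw [om_pair, ← hm2, h]

end Pool.Agent.U95.TD
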